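import Mathlib

/-! The number of sums of two squares up to X is at most C X / sqrt (log X). -/

set_option autoImplicit false

open Finset

namespace Pool.Agent.MP_ddf486_co.Grid

/-- All prime factors are 1 mod 4. -/
def Spl (t : ℕ) : Prop := ∀ p : ℕ, p.Prime → p ∣ t → p % 4 = 1

open Classical in
/-- The positive integers up to Y all of whose prime factors are 1 mod 4. -/
noncomputable def splSet (Y : ℕ) : Finset ℕ := (Ioc 0 Y).filter Spl

/-- Their reciprocal sum. -/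
noncomputable def hs (Y : ℕ) : ℝ := ∑ t ∈ splSet Y, 1 / (t : ℝ)

/-- The character mod 4, real valued. -/
noncomputable def ch (d : ℕ) : ℝ := ((ZMod.χ₄ (d : ZMod 4) : ℤ) : ℝ)

lemma mem_splSet {Y t : ℕ} : t ∈ splSet Y ↔ (0 < t ∧ t ≤ Y) ∧ Spl t := by
  classical
  simp [splSet]

lemma Spl.of_dvd {t d : ℕ} (h : Spl t) (hd : d ∣ t) : Spl d :=
  fun p hp hpd => h p hp (hpd.trans hd)

lemma Spl.mul {a b : ℕ} (ha : Spl a) (hb : Spl b) : Spl (a * b) := fun p hp h =>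
  ((Nat.Prime.dvd_mul hp).1 h).elim (ha p hp) (hb p hp)

lemma Spl.mod_four {t : ℕ} (h : Spl t) : t % 4 = 1 := by
  induction t using induction_on_primes with
  | zero => exact absurd (h 2 Nat.prime_two (dvd_zero 2)) (by norm_num)
  | one => rfl
  | prime_mul p a hp ih =>
    have h1 : p % 4 = 1 := h p hp (Dvd.intro _ rfl)
    have h2 : a % 4 = 1 := ih (h.of_dvd (Dvd.intro_left _ rfl))
    rw [Nat.mul_mod, h1, h2]

lemma ch_spl {t : ℕ} (h : Spl t) : ch t = 1 := by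
  simp [ch, ZMod.χ₄_nat_one_mod_four h.mod_four]

lemma ch_eq (d : ℕ) : ch d = if d % 2 = 0 then 0 else if d % 4 = 1 then 1 else -1 := by
  rw [ch, ZMod.χ₄_nat_eq_if_mod_four]
  split_ifs <;> simp

lemma r_nonneg (n : ℕ) : 0 ≤ ∑ d ∈ n.divisors, ch d := by
  let χ : DirichletCharacter ℂ 4 := ZMod.χ₄.ringHomComp (Int.castRingHom ℂ)
  have hq : χ ^ 2 = 1 := (ZMod.isQuadratic_χ₄.comp _).sq_eq_one
  have h := DirichletCharacter.zetaMul_nonneg hq n
  have e : DirichletCharacter.zetaMul χ n = ((∑ d ∈ n.divisors, ch d : ℝ) : ℂ) := by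
    rw [DirichletCharacter.zetaMul, ArithmeticFunction.coe_zeta_mul_apply]
    push_cast
    refine sum_congr rfl fun d hd => ?_
    have hd0 : d ≠ 0 := (Nat.pos_of_mem_divisors hd).ne'
    simp [toArithmeticFunction, hd0, χ, ch]
  rw [e] at h
  exact_mod_cast h

lemma alt_aux (D : ℕ) : ∑ d ∈ Ioc 0 D, ch d / d ≤
    1 - (if D % 4 = 0 then 1 / ((D : ℝ) + 1) else if D % 4 = 3 then 1 / ((D : ℝ) + 2) else 0) := by
  induction D with
  | zero => simp
  | succ D ih =>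
    rw [sum_Ioc_succ_top (Nat.zero_le D), ch_eq]
    have hD : (0 : ℝ) ≤ D := Nat.cast_nonneg D
    have h4 : D % 4 = 0 ∨ D % 4 = 1 ∨ D % 4 = 2 ∨ D % 4 = 3 := by omega
    push_cast
    rcases h4 with h | h | h | h
    · rw [if_pos h] at ih
      rw [if_neg (by omega), if_pos (by omega), if_neg (by omega), if_neg (by omega)]
      linarith
    · rw [if_neg (by omega), if_neg (by omega)] at ih
      rw [if_pos (by omega), if_neg (by omega), if_neg (by omega)]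
      simpa using ih
    · rw [if_neg (by omega), if_neg (by omega)] at ih
      rw [if_neg (by omega), if_neg (by omega), if_neg (by omega), if_pos (by omega)]
      have : 1 / ((D : ℝ) + 1 + 2) ≤ 1 / ((D : ℝ) + 1) :=
        one_div_le_one_div_of_le (by linarith) (by linarith)
      have e : (-1 : ℝ) / ((D : ℝ) + 1) = -(1 / ((D : ℝ) + 1)) := by ring
      rw [e]
      linarith
    · rw [if_neg (by omega), if_pos h] at ih
      rw [if_pos (by omega), if_pos (by omega)]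
      have e : (D : ℝ) + 1 + 1 = D + 2 := by ring
      rw [e]
      simpa using ih

lemma alt_le (D : ℕ) : ∑ d ∈ Ioc 0 D, ch d / d ≤ 1 := by
  refine (alt_aux D).trans ?_
  have hD : (0 : ℝ) ≤ D := Nat.cast_nonneg D
  split_ifs
  · have : 0 ≤ 1 / ((D : ℝ) + 1) := by positivity
    linarith
  · have : 0 ≤ 1 / ((D : ℝ) + 2) := by positivity
    linarith
  · simp

lemma hyp (B : Finset ℕ) (Y : ℕ) (hB : B ⊆ Ioc 0 Y) (g : ℕ × ℕ → ℝ) :
    ∑ n ∈ B, ∑ x ∈ n.divisorsAntidiagonal, g x =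
      ∑ e ∈ Ioc 0 Y, ∑ d ∈ Ioc 0 Y, if d * e ∈ B then g (d, e) else 0 := by
  have h1 : ∑ n ∈ B, ∑ x ∈ n.divisorsAntidiagonal, g x =
      ∑ n ∈ B, ∑ x ∈ (Ioc 0 Y ×ˢ Ioc 0 Y) with x.1 * x.2 = n, g x := by
    refine sum_congr rfl fun n hn => ?_
    have := mem_Ioc.1 (hB hn)
    rw [Nat.divisorsAntidiagonal_eq_prod_filter_of_le this.1.ne' this.2]
  rw [h1, sum_fiberwise_eq_sum_filter, sum_filter, sum_product_right]

lemma harm_le (Y : ℕ) : ∑ e ∈ Ioc 0 Y, 1 / (e : ℝ) ≤ 1 + Real.log Y := by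
  have h := harmonic_le_one_add_log Y
  rw [harmonic_eq_sum_Icc] at h
  push_cast at h
  have e : Ioc 0 Y = Icc 1 Y := by ext x; simp [Nat.succ_le_iff]
  rw [e]
  simpa [one_div] using h

lemma r_sum (Y : ℕ) :
    ∑ n ∈ Ioc 0 Y, ∑ x ∈ n.divisorsAntidiagonal, ch x.1 / ((x.1 : ℝ) * x.2) ≤ 1 + Real.log Y := by
  rw [hyp (Ioc 0 Y) Y Subset.rfl]
  refine le_trans (sum_le_sum fun e he => ?_) (harm_le Y)
  have he0 : 0 < e := (mem_Ioc.1 he).1
  have he1 : (0 : ℝ) < e := by exact_mod_cast he0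
  rw [← sum_filter]
  have hf : (Ioc 0 Y).filter (fun d => d * e ∈ Ioc 0 Y) = Ioc 0 (Y / e) := by
    ext d
    simp only [mem_filter, mem_Ioc, Nat.le_div_iff_mul_le he0]
    constructor
    · rintro ⟨⟨h1, _⟩, _, h3⟩
      exact ⟨h1, h3⟩
    · rintro ⟨h1, h3⟩
      exact ⟨⟨h1, le_trans (Nat.le_mul_of_pos_right d he0) h3⟩, Nat.mul_pos h1 he0, h3⟩
  rw [hf]
  have : ∑ d ∈ Ioc 0 (Y / e), ch d / ((d : ℝ) * e) = (∑ d ∈ Ioc 0 (Y / e), ch d / d) * (1 / e) := by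
    rw [sum_mul]
    refine sum_congr rfl fun d _ => ?_
    rw [div_mul_div_comm, mul_one]
  simp only
  rw [this]
  calc _ ≤ 1 * (1 / (e : ℝ)) := mul_le_mul_of_nonneg_right (alt_le _) (by positivity)
    _ = _ := one_mul _

lemma hs_nonneg (Y : ℕ) : 0 ≤ hs Y := sum_nonneg fun _ _ => by positivity

lemma hs_mono {Y Z : ℕ} (h : Y ≤ Z) : hs Y ≤ hs Z := by
  refine sum_le_sum_of_subset_of_nonneg (fun t ht => ?_) fun _ _ _ => by positivity
  rw [mem_splSet] at ht ⊢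
  exact ⟨⟨ht.1.1, ht.1.2.trans h⟩, ht.2⟩

lemma hs_sq (Y : ℕ) : hs Y ^ 2 ≤ 1 + 2 * Real.log Y := by
  classical
  have e1 : hs Y ^ 2 = ∑ x ∈ splSet Y ×ˢ splSet Y, 1 / ((x.1 : ℝ) * x.2) := by
    rw [sq, hs, sum_mul_sum, sum_product]
    refine sum_congr rfl fun a _ => sum_congr rfl fun b _ => ?_
    rw [div_mul_div_comm, mul_one]
  have hmap : ∀ x ∈ splSet Y ×ˢ splSet Y, x.1 * x.2 ∈ Ioc 0 (Y * Y) := by
    intro x hx
    obtain ⟨h1, h2⟩ := mem_product.1 hx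
    rw [mem_splSet] at h1 h2
    exact mem_Ioc.2 ⟨Nat.mul_pos h1.1.1 h2.1.1, Nat.mul_le_mul h1.1.2 h2.1.2⟩
  rw [e1, ← sum_fiberwise_of_maps_to hmap]
  have hlog : Real.log ((Y * Y : ℕ) : ℝ) = 2 * Real.log Y := by
    push_cast
    rw [← sq, Real.log_pow]
    norm_num
  rw [← hlog]
  refine le_trans (sum_le_sum fun n hn => ?_) (r_sum (Y * Y))
  have hn0 : 0 < n := (mem_Ioc.1 hn).1
  by_cases hs' : Spl n
  · calc ∑ x ∈ (splSet Y ×ˢ splSet Y) with x.1 * x.2 = n, 1 / ((x.1 : ℝ) * x.2)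
        ≤ ∑ x ∈ n.divisorsAntidiagonal, 1 / ((x.1 : ℝ) * x.2) := by
          refine sum_le_sum_of_subset_of_nonneg (fun x hx => ?_) fun _ _ _ => by positivity
          exact Nat.mem_divisorsAntidiagonal.2 ⟨(mem_filter.1 hx).2, hn0.ne'⟩
      _ = _ := by
          refine sum_congr rfl fun x hx => ?_
          have := (Nat.mem_divisorsAntidiagonal.1 hx).1
          rw [ch_spl (hs'.of_dvd ⟨x.2, this.symm⟩)]
  · have hz : ∑ x ∈ (splSet Y ×ˢ splSet Y) with x.1 * x.2 = n, 1 / ((x.1 : ℝ) * x.2) = 0 := by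
      refine sum_eq_zero fun x hx => ?_
      obtain ⟨hx1, hx2⟩ := mem_filter.1 hx
      obtain ⟨h1, h2⟩ := mem_product.1 hx1
      rw [mem_splSet] at h1 h2
      exact absurd (hx2 ▸ h1.2.mul h2.2) hs'
    rw [hz]
    have e2 : ∑ x ∈ n.divisorsAntidiagonal, ch x.1 / ((x.1 : ℝ) * x.2) =
        (∑ d ∈ n.divisors, ch d) / n := by
      rw [← Nat.sum_divisorsAntidiagonal (fun d _ => ch d), sum_div]
      refine sum_congr rfl fun x hx => ?_
      have := (Nat.mem_divisorsAntidiagonal.1 hx).1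
      rw [← this]
      push_cast
      rfl
    rw [e2]
    exact div_nonneg (r_nonneg n) (Nat.cast_nonneg n)

lemma log_sum (Y : ℕ) :
    ∑ t ∈ splSet Y, Real.log t ≤ (Real.log 4 + 4) * Y * hs Y := by
  classical
  have e1 : ∑ t ∈ splSet Y, Real.log t =
      ∑ t ∈ splSet Y, ∑ x ∈ t.divisorsAntidiagonal, ArithmeticFunction.vonMangoldt x.1 := by
    refine sum_congr rfl fun t _ => ?_
    rw [Nat.sum_divisorsAntidiagonal (fun d _ => ArithmeticFunction.vonMangoldt d),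
      ArithmeticFunction.vonMangoldt_sum]
  have hB : splSet Y ⊆ Ioc 0 Y := fun t ht => mem_Ioc.2 (mem_splSet.1 ht).1
  rw [e1, hyp _ Y hB, hs, mul_sum]
  have e2 : ∑ t ∈ splSet Y, (Real.log 4 + 4) * Y * (1 / (t : ℝ)) =
      ∑ e ∈ Ioc 0 Y, if Spl e then (Real.log 4 + 4) * Y * (1 / (e : ℝ)) else 0 := by
    rw [← sum_filter]
    rfl
  rw [e2]
  refine sum_le_sum fun e he => ?_
  have he0 : 0 < e := (mem_Ioc.1 he).1
  have he1 : (0 : ℝ) < e := by exact_mod_cast he0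
  split_ifs with h
  · rw [← sum_filter]
    have hY : (0 : ℝ) ≤ (Y : ℝ) / e := by positivity
    calc ∑ d ∈ (Ioc 0 Y).filter (fun d => d * e ∈ splSet Y), ArithmeticFunction.vonMangoldt d
        ≤ Chebyshev.psi ((Y : ℝ) / e) := by
          rw [Chebyshev.psi]
          refine sum_le_sum_of_subset_of_nonneg (fun d hd => ?_)
            fun _ _ _ => ArithmeticFunction.vonMangoldt_nonneg
          obtain ⟨h1, h2⟩ := mem_filter.1 hd
          refine mem_Ioc.2 ⟨(mem_Ioc.1 h1).1, Nat.le_floor ?_⟩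
          rw [le_div_iff₀ he1]
          exact_mod_cast (mem_splSet.1 h2).1.2
      _ ≤ (Real.log 4 + 4) * ((Y : ℝ) / e) := Chebyshev.psi_le_const_mul_self hY
      _ = _ := by ring
  · refine le_of_eq (sum_eq_zero fun d _ => if_neg fun hd => ?_)
    exact h ((mem_splSet.1 hd).2.of_dvd (Dvd.intro_left _ rfl))

/-- Pairs (s, t) with s squared times t at most X and t in the split set. -/
noncomputable def prs (X : ℕ) : Finset (Σ _ : ℕ, ℕ) :=
  (Ioc 0 X).sigma fun s => splSet (X / s ^ 2)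

lemma log_ratio {u s : ℝ} (hs0 : 0 < s) (hu : s ^ 2 ≤ u) :
    Real.log u ≤ 4 * u * (1 / s ^ (3 / 2 : ℝ)) := by
  have hu0 : 0 < u := lt_of_lt_of_le (by positivity) hu
  have h1 := Real.log_le_rpow_div hu0.le (show (0 : ℝ) < 1 / 4 by norm_num)
  have h2 : s ^ (3 / 2 : ℝ) ≤ u ^ (3 / 4 : ℝ) := by
    have : s ^ (3 / 2 : ℝ) = (s ^ 2) ^ (3 / 4 : ℝ) := by
      rw [← Real.rpow_natCast, ← Real.rpow_mul hs0.le]
      norm_num
    rw [this]
    exact Real.rpow_le_rpow (by positivity) hu (by norm_num)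
  have h3 : u ^ (1 / 4 : ℝ) * u ^ (3 / 4 : ℝ) = u := by
    rw [← Real.rpow_add hu0]
    norm_num
  have h4 : 0 < s ^ (3 / 2 : ℝ) := Real.rpow_pos_of_pos hs0 _
  have h5 : 0 < u ^ (1 / 4 : ℝ) := Real.rpow_pos_of_pos hu0 _
  have h6 : u ^ (1 / 4 : ℝ) ≤ u * (1 / s ^ (3 / 2 : ℝ)) := by
    rw [mul_one_div, le_div_iff₀ h4]
    calc u ^ (1 / 4 : ℝ) * s ^ (3 / 2 : ℝ) ≤ u ^ (1 / 4 : ℝ) * u ^ (3 / 4 : ℝ) :=
          mul_le_mul_of_nonneg_left h2 h5.le
      _ = u := h3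
  linarith

lemma row_le (X s : ℕ) (hs1 : 0 < s) :
    ∑ _t ∈ splSet (X / s ^ 2), Real.log X ≤
      (Real.log 4 + 8) * X * hs X * (1 / (s : ℝ) ^ (3 / 2 : ℝ)) := by
  have hs2 : (1 : ℝ) ≤ s := by exact_mod_cast hs1
  have hs3 : (0 : ℝ) < s := by linarith
  have hw : 0 < (s : ℝ) ^ (3 / 2 : ℝ) := Real.rpow_pos_of_pos hs3 _
  have hX : (0 : ℝ) ≤ X := Nat.cast_nonneg X
  have hle : X / s ^ 2 ≤ X := Nat.div_le_self _ _
  have hH := hs_mono hle
  have hH0 := hs_nonneg (X / s ^ 2)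
  have hl4 : 0 ≤ Real.log 4 := Real.log_nonneg (by norm_num)
  have h1 : ∑ _t ∈ splSet (X / s ^ 2), Real.log X ≤
      ∑ t ∈ splSet (X / s ^ 2),
        (4 * X * (1 / (s : ℝ) ^ (3 / 2 : ℝ)) * (1 / (t : ℝ)) + Real.log t) := by
    refine sum_le_sum fun t ht => ?_
    obtain ⟨⟨ht0, ht1⟩, -⟩ := mem_splSet.1 ht
    have ht2 : (0 : ℝ) < t := by exact_mod_cast ht0
    have ht3 : t * s ^ 2 ≤ X := (Nat.le_div_iff_mul_le (by positivity)).1 ht1
    have ht4 : (t : ℝ) * (s : ℝ) ^ 2 ≤ X := by exact_mod_cast ht3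
    have hX0 : (0 : ℝ) < X := lt_of_lt_of_le (by positivity) ht4
    have hu : (s : ℝ) ^ 2 ≤ (X : ℝ) / t := by
      rw [le_div_iff₀ ht2]
      linarith
    have := log_ratio hs3 hu
    rw [Real.log_div hX0.ne' ht2.ne'] at this
    have e : 4 * ((X : ℝ) / t) * (1 / (s : ℝ) ^ (3 / 2 : ℝ)) =
        4 * X * (1 / (s : ℝ) ^ (3 / 2 : ℝ)) * (1 / (t : ℝ)) := by ring
    linarith
  rw [sum_add_distrib, ← mul_sum] at h1
  have h2 := log_sum (X / s ^ 2)
  have h3 : ((X / s ^ 2 : ℕ) : ℝ) ≤ X * (1 / (s : ℝ) ^ (3 / 2 : ℝ)) := by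
    have h4 : ((X / s ^ 2 : ℕ) : ℝ) ≤ (X : ℝ) / ((s ^ 2 : ℕ) : ℝ) := Nat.cast_div_le
    refine h4.trans ?_
    rw [mul_one_div]
    refine div_le_div_of_nonneg_left hX hw ?_
    push_cast
    rw [← Real.rpow_natCast]
    exact Real.rpow_le_rpow_of_exponent_le hs2 (by norm_num)
  have h5 : (Real.log 4 + 4) * ((X / s ^ 2 : ℕ) : ℝ) * hs (X / s ^ 2) ≤
      (Real.log 4 + 4) * (X * (1 / (s : ℝ) ^ (3 / 2 : ℝ))) * hs X := by
    have := hs_nonneg X
    gcongr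
  have h6 : 4 * X * (1 / (s : ℝ) ^ (3 / 2 : ℝ)) * hs (X / s ^ 2) ≤
      4 * X * (1 / (s : ℝ) ^ (3 / 2 : ℝ)) * hs X :=
    mul_le_mul_of_nonneg_left hH (by positivity)
  have h7 : ∑ t ∈ splSet (X / s ^ 2), 1 / (t : ℝ) = hs (X / s ^ 2) := rfl
  rw [h7] at h1
  calc _ ≤ 4 * X * (1 / (s : ℝ) ^ (3 / 2 : ℝ)) * hs X +
        (Real.log 4 + 4) * (X * (1 / (s : ℝ) ^ (3 / 2 : ℝ))) * hs X := by linarith
    _ = _ := by ring

lemma prs_le : ∃ C : ℝ, 0 < C ∧ ∀ X : ℕ, ((prs X).card : ℝ) * Real.log X ≤ C * X * hs X := by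
  have hsum : Summable fun s : ℕ => 1 / (s : ℝ) ^ (3 / 2 : ℝ) :=
    Real.summable_one_div_nat_rpow.2 (by norm_num)
  have hl4 : 0 ≤ Real.log 4 := Real.log_nonneg (by norm_num)
  have hT : 0 ≤ ∑' s : ℕ, 1 / (s : ℝ) ^ (3 / 2 : ℝ) := tsum_nonneg fun s => by positivity
  refine ⟨(Real.log 4 + 8) * ((∑' s : ℕ, 1 / (s : ℝ) ^ (3 / 2 : ℝ)) + 1), by positivity,
    fun X => ?_⟩
  have e : ((prs X).card : ℝ) * Real.log X =
      ∑ s ∈ Ioc 0 X, ∑ _t ∈ splSet (X / s ^ 2), Real.log X := by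
    rw [prs, card_sigma]
    push_cast
    rw [sum_mul]
    simp
  have hH := hs_nonneg X
  have hX : (0 : ℝ) ≤ X := Nat.cast_nonneg X
  rw [e]
  calc _ ≤ ∑ s ∈ Ioc 0 X, (Real.log 4 + 8) * X * hs X * (1 / (s : ℝ) ^ (3 / 2 : ℝ)) :=
        sum_le_sum fun s hs' => row_le X s (mem_Ioc.1 hs').1
    _ = (Real.log 4 + 8) * X * hs X * ∑ s ∈ Ioc 0 X, 1 / (s : ℝ) ^ (3 / 2 : ℝ) := by
        rw [mul_sum]
    _ ≤ (Real.log 4 + 8) * X * hs X * ((∑' s : ℕ, 1 / (s : ℝ) ^ (3 / 2 : ℝ)) + 1) := by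
        refine mul_le_mul_of_nonneg_left ?_ (by positivity)
        have := hsum.sum_le_tsum (Ioc 0 X) fun s _ => by positivity
        linarith
    _ = _ := by ring

/-- The positive sums of two squares up to X. -/
def twoSq (X : ℕ) : Finset ℕ := (Ioc 0 X).filter fun m => ∃ a b : ℕ, m = a ^ 2 + b ^ 2

lemma decomp {m : ℕ} (hm : 0 < m) (h : ∃ a b : ℕ, m = a ^ 2 + b ^ 2) :
    ∃ s t : ℕ, Spl t ∧ (m = s ^ 2 * t ∨ m = 2 * (s ^ 2 * t)) := by
  obtain ⟨a, b, rfl, hb⟩ := Nat.eq_sq_add_sq_iff_eq_sq_mul.1 h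
  have hb0 : b ≠ 0 := by
    rintro rfl
    simp at hm
  obtain ⟨k, t, ht, rfl⟩ := Nat.exists_eq_two_pow_mul_odd hb0
  have hs' : Spl t := by
    intro p hp hpt
    have h3 : p % 4 ≠ 3 := Nat.mod_four_ne_three_of_mem_primeFactors_of_isSquare_neg_one
      (Nat.mem_primeFactors.2 ⟨hp, hpt.mul_left _, hb0⟩) hb
    have h2 : p % 2 = 1 := Nat.odd_iff.1 (ht.of_dvd_nat hpt)
    omega
  refine ⟨a * 2 ^ (k / 2), t, hs', ?_⟩
  rcases Nat.even_or_odd' k with ⟨j, rfl | rfl⟩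
  · left
    rw [show 2 * j / 2 = j by omega]
    ring
  · right
    rw [show (2 * j + 1) / 2 = j by omega]
    ring

lemma twoSq_card (X : ℕ) : (twoSq X).card ≤ 2 * (prs X).card := by
  have hsub : twoSq X ⊆ (prs X).image (fun x => x.1 ^ 2 * x.2) ∪
      (prs X).image (fun x => 2 * (x.1 ^ 2 * x.2)) := by
    intro m hm
    obtain ⟨h1, h2⟩ := mem_filter.1 hm
    obtain ⟨hm0, hmX⟩ := mem_Ioc.1 h1
    obtain ⟨s, t, ht, h⟩ := decomp hm0 h2
    have hp : 0 < s ^ 2 * t := by omega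
    have hq : s ^ 2 * t ≤ X := by omega
    have hs0 : 0 < s := Nat.pos_of_ne_zero (by rintro rfl; simp at hp)
    have ht0 : 0 < t := Nat.pos_of_ne_zero (by rintro rfl; simp at hp)
    have hmem : (⟨s, t⟩ : Σ _ : ℕ, ℕ) ∈ prs X := by
      refine mem_sigma.2 ⟨mem_Ioc.2 ⟨hs0, ?_⟩, mem_splSet.2 ⟨⟨ht0, ?_⟩, ht⟩⟩
      · calc s ≤ s ^ 2 := Nat.le_self_pow two_ne_zero s
          _ ≤ s ^ 2 * t := Nat.le_mul_of_pos_right _ ht0
          _ ≤ X := hq
      · rw [Nat.le_div_iff_mul_le (by positivity), mul_comm]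
        exact hq
    rcases h with h | h
    · exact mem_union_left _ (mem_image.2 ⟨_, hmem, h.symm⟩)
    · exact mem_union_right _ (mem_image.2 ⟨_, hmem, h.symm⟩)
  calc (twoSq X).card ≤ _ := card_le_card hsub
    _ ≤ _ := card_union_le _ _
    _ ≤ (prs X).card + (prs X).card := add_le_add card_image_le card_image_le
    _ = _ := by ring

/-- The upper bound of Landau, up to the constant. -/
theorem twoSq_le : ∃ C : ℝ, 0 < C ∧ ∀ X : ℕ, 3 ≤ X →
    ((twoSq X).card : ℝ) ≤ C * X / √(Real.log X) := by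
  obtain ⟨C, hC, h⟩ := prs_le
  refine ⟨4 * C, by positivity, fun X hX => ?_⟩
  have hX3 : (3 : ℝ) ≤ X := by exact_mod_cast hX
  have hL : 1 ≤ Real.log X := by
    rw [Real.le_log_iff_exp_le (by linarith)]
    exact Real.exp_one_lt_three.le.trans hX3
  have hr : 0 < √(Real.log X) := Real.sqrt_pos.2 (by linarith)
  have hrr : √(Real.log X) * √(Real.log X) = Real.log X := Real.mul_self_sqrt (by linarith)
  have hH : hs X ≤ 2 * √(Real.log X) := by
    refine le_of_sq_le_sq ?_ (by positivity)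
    have := hs_sq X
    nlinarith
  have h1 : ((twoSq X).card : ℝ) ≤ 2 * (prs X).card := by exact_mod_cast twoSq_card X
  have h2 : ((prs X).card : ℝ) * √(Real.log X) * √(Real.log X) ≤ 2 * C * X * √(Real.log X) := by
    rw [mul_assoc, hrr]
    calc _ ≤ C * X * hs X := h X
      _ ≤ C * X * (2 * √(Real.log X)) := mul_le_mul_of_nonneg_left hH (by positivity)
      _ = _ := by ring
  have h3 := le_of_mul_le_mul_right h2 hr
  rw [le_div_iff₀ hr]
  nlinarith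

end Pool.Agent.MP_ddf486_co.Grid
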