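import Pool.Agent.MP_ddf486_co.Grid.TwoSq

/-! The bound f(n) <= C n / sqrt (log n) of Erdos, and the passage to extremal configurations. -/

set_option autoImplicit false

open Finset

namespace Pool.Agent.MP_ddf486_co.Grid

/-- The grid point number i in rows of length N. -/
noncomputable def pt (N i : ℕ) : EuclideanSpace ℝ (Fin 2) :=
  WithLp.toLp 2 ![((i % N : ℕ) : ℝ), ((i / N : ℕ) : ℝ)]

lemma pt_inj (N : ℕ) : Function.Injective (pt N) := by
  intro i j h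
  have h0 := congrArg (fun x : EuclideanSpace ℝ (Fin 2) => x 0) h
  have h1 := congrArg (fun x : EuclideanSpace ℝ (Fin 2) => x 1) h
  simp only [pt, Matrix.cons_val_zero, Matrix.cons_val_one, Nat.cast_inj] at h0 h1
  rw [← Nat.mod_add_div i N, ← Nat.mod_add_div j N, h0, h1]

lemma sq_sub (a b M : ℕ) (ha : a ≤ M) (hb : b ≤ M) :
    ∃ u : ℕ, u ≤ M ∧ ((a : ℝ) - b) ^ 2 = ((u ^ 2 : ℕ) : ℝ) := by
  rcases le_total a b with h | h
  · refine ⟨b - a, by omega, ?_⟩
    push_cast [Nat.cast_sub h]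
    ring
  · refine ⟨a - b, by omega, ?_⟩
    push_cast [Nat.cast_sub h]
    ring

lemma dist_pt {n i j : ℕ} (hi : i < n) (hj : j < n) (hij : i ≠ j) :
    ∃ m ∈ twoSq (2 * n), dist (pt (n.sqrt + 1) i) (pt (n.sqrt + 1) j) = √(m : ℝ) := by
  have hN : 0 < n.sqrt + 1 := Nat.succ_pos _
  have hlt : n < (n.sqrt + 1) * (n.sqrt + 1) := Nat.lt_succ_sqrt n
  have hle : n.sqrt ^ 2 ≤ n := Nat.sqrt_le' n
  have hmod : ∀ k, k % (n.sqrt + 1) ≤ n.sqrt := fun k => Nat.le_of_lt_succ (Nat.mod_lt k hN)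
  have hdiv : ∀ k, k < n → k / (n.sqrt + 1) ≤ n.sqrt := fun k hk =>
    Nat.le_of_lt_succ ((Nat.div_lt_iff_lt_mul hN).2 (hk.trans hlt))
  obtain ⟨u, hu, eu⟩ := sq_sub _ _ _ (hmod i) (hmod j)
  obtain ⟨v, hv, ev⟩ := sq_sub _ _ _ (hdiv i hi) (hdiv j hj)
  have hd : dist (pt (n.sqrt + 1) i) (pt (n.sqrt + 1) j) = √((u ^ 2 + v ^ 2 : ℕ) : ℝ) := by
    rw [EuclideanSpace.dist_eq, Fin.sum_univ_two, Nat.cast_add, ← eu, ← ev]
    simp [pt, Real.dist_eq]
  refine ⟨u ^ 2 + v ^ 2, mem_filter.2 ⟨mem_Ioc.2 ⟨?_, ?_⟩, u, v, rfl⟩, hd⟩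
  · refine Nat.pos_of_ne_zero fun h0 => hij (pt_inj (n.sqrt + 1) ?_)
    rw [← dist_eq_zero, hd, h0]
    simp
  · have h1 : u ^ 2 ≤ n.sqrt ^ 2 := Nat.pow_le_pow_left hu 2
    have h2 : v ^ 2 ≤ n.sqrt ^ 2 := Nat.pow_le_pow_left hv 2
    omega

/-- For every n at least 2 some n points of the plane have at most C n / sqrt (log n)
distinct distances. -/
theorem grid_few : ∃ C : ℝ, 0 < C ∧ ∀ n : ℕ, 2 ≤ n →
    ∃ P : Finset (EuclideanSpace ℝ (Fin 2)), P.card = n ∧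
      ((P.offDiag.image fun q => dist q.1 q.2).card : ℝ) ≤ C * n / √(Real.log n) := by
  obtain ⟨C, hC, h⟩ := twoSq_le
  refine ⟨2 * C, by positivity, fun n hn => ?_⟩
  refine ⟨(range n).map ⟨pt (n.sqrt + 1), pt_inj _⟩, by simp, ?_⟩
  have hsub : (((range n).map ⟨pt (n.sqrt + 1), pt_inj _⟩).offDiag.image fun q => dist q.1 q.2) ⊆
      (twoSq (2 * n)).image fun m : ℕ => √(m : ℝ) := by
    intro r hr
    obtain ⟨q, hq, rfl⟩ := mem_image.1 hr
    obtain ⟨h1, h2, h3⟩ := mem_offDiag.1 hq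
    obtain ⟨i, hi, ei⟩ := mem_map.1 h1
    obtain ⟨j, hj, ej⟩ := mem_map.1 h2
    have hij : i ≠ j := by
      rintro rfl
      exact h3 (ei.symm.trans ej)
    obtain ⟨m, hm, e⟩ := dist_pt (mem_range.1 hi) (mem_range.1 hj) hij
    refine mem_image.2 ⟨m, hm, ?_⟩
    rw [← ei, ← ej]
    exact e.symm
  have h1 := (card_le_card hsub).trans card_image_le
  have h2 := h (2 * n) (by omega)
  have hn2 : (2 : ℝ) ≤ n := by exact_mod_cast hn
  have hl : 0 < Real.log n := Real.log_pos (by linarith)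
  have h3 : √(Real.log n) ≤ √(Real.log ((2 * n : ℕ) : ℝ)) := by
    refine Real.sqrt_le_sqrt (Real.log_le_log (by linarith) ?_)
    push_cast
    linarith
  have h4 : C * ((2 * n : ℕ) : ℝ) / √(Real.log ((2 * n : ℕ) : ℝ)) ≤ 2 * C * n / √(Real.log n) := by
    have e : C * ((2 * n : ℕ) : ℝ) = 2 * C * n := by
      push_cast
      ring
    rw [e]
    exact div_le_div_of_nonneg_left (by positivity) (Real.sqrt_pos.2 hl) h3
  exact le_trans (by exact_mod_cast h1) (h2.trans h4)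

lemma pinned_le (P : Finset (EuclideanSpace ℝ (Fin 2))) :
    ∑ a ∈ P, (((P.image fun b => dist a b).erase 0).card : ℝ) ≤
      P.card * ((P.offDiag.image fun q => dist q.1 q.2).card : ℝ) := by
  rw [← nsmul_eq_mul]
  refine sum_le_card_nsmul _ _ _ fun a ha => ?_
  refine Nat.cast_le.2 (card_le_card fun r hr => ?_)
  obtain ⟨h0, h1⟩ := mem_erase.1 hr
  obtain ⟨b, hb, rfl⟩ := mem_image.1 h1
  exact mem_image.2 ⟨(a, b), mem_offDiag.2 ⟨ha, hb, dist_ne_zero.1 h0⟩, rfl⟩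

/-- Large extremal configurations have pinned distance sum at most n^2 / (log n)^(1/4). -/
theorem extremal_pinned : ∃ n₀ : ℕ, ∀ P : Finset (EuclideanSpace ℝ (Fin 2)), n₀ ≤ P.card →
    (∀ P' : Finset (EuclideanSpace ℝ (Fin 2)), P'.card = P.card →
      (P.offDiag.image fun q => dist q.1 q.2).card ≤
        (P'.offDiag.image fun q => dist q.1 q.2).card) →
    ∑ a ∈ P, (((P.image fun b => dist a b).erase 0).card : ℝ) ≤
      (P.card : ℝ) ^ 2 / Real.log P.card ^ (1 / 4 : ℝ) := by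
  obtain ⟨C, hC, h⟩ := grid_few
  refine ⟨max 2 ⌈Real.exp (C ^ 4)⌉₊, fun P hP hex => ?_⟩
  have hn : 2 ≤ P.card := (le_max_left _ _).trans hP
  have hn2 : (2 : ℝ) ≤ P.card := by exact_mod_cast hn
  have hl : 0 < Real.log P.card := Real.log_pos (by linarith)
  have hC4 : C ^ 4 ≤ Real.log P.card := by
    rw [Real.le_log_iff_exp_le (by linarith)]
    exact (Nat.le_ceil _).trans (by exact_mod_cast (le_max_right _ _).trans hP)
  have hw : 0 < Real.log P.card ^ (1 / 4 : ℝ) := Real.rpow_pos_of_pos hl _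
  have hCw : C ≤ Real.log P.card ^ (1 / 4 : ℝ) := by
    have e : C = (C ^ 4) ^ (1 / 4 : ℝ) := by
      rw [← Real.rpow_natCast, ← Real.rpow_mul hC.le]
      norm_num
    rw [e]
    exact Real.rpow_le_rpow (by positivity) hC4 (by norm_num)
  have hww : √(Real.log P.card) =
      Real.log P.card ^ (1 / 4 : ℝ) * Real.log P.card ^ (1 / 4 : ℝ) := by
    rw [Real.sqrt_eq_rpow, ← Real.rpow_add hl]
    norm_num
  obtain ⟨P', hc, hP'⟩ := h P.card hn
  have h1 : ((P.offDiag.image fun q => dist q.1 q.2).card : ℝ) ≤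
      C * P.card / √(Real.log P.card) := le_trans (by exact_mod_cast hex P' hc) hP'
  have h2 : C * P.card / √(Real.log P.card) ≤ P.card / Real.log P.card ^ (1 / 4 : ℝ) := by
    rw [hww, div_le_div_iff₀ (by positivity) hw]
    have : C * (P.card * Real.log P.card ^ (1 / 4 : ℝ)) ≤
        Real.log P.card ^ (1 / 4 : ℝ) * (P.card * Real.log P.card ^ (1 / 4 : ℝ)) :=
      mul_le_mul_of_nonneg_right hCw (by positivity)
    linarith
  calc _ ≤ _ := pinned_le P
    _ ≤ P.card * (P.card / Real.log P.card ^ (1 / 4 : ℝ)) :=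
        mul_le_mul_of_nonneg_left (h1.trans h2) (by positivity)
    _ = _ := by ring

/-- From the rich line theorem for few pinned distances to extremal configurations. -/
theorem extremal_of
    (h : ∀ δ : ℝ, 0 < δ → ∃ c : ℝ, 0 < c ∧ ∃ n₀ : ℕ, ∀ P : Finset (EuclideanSpace ℝ (Fin 2)),
      n₀ ≤ P.card →
      ∑ a ∈ P, (((P.image fun b => dist a b).erase 0).card : ℝ) ≤
        (P.card : ℝ) ^ 2 / Real.log P.card ^ δ →
      ∃ Q ⊆ P, Collinear ℝ (Q : Set (EuclideanSpace ℝ (Fin 2))) ∧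
        Real.exp (Real.log P.card ^ c) ≤ Q.card) :
    ∃ c : ℝ, 0 < c ∧ ∃ n₀ : ℕ, ∀ P : Finset (EuclideanSpace ℝ (Fin 2)), n₀ ≤ P.card →
      (∀ P' : Finset (EuclideanSpace ℝ (Fin 2)), P'.card = P.card →
        (P.offDiag.image fun q => dist q.1 q.2).card ≤
          (P'.offDiag.image fun q => dist q.1 q.2).card) →
      ∃ Q ⊆ P, Collinear ℝ (Q : Set (EuclideanSpace ℝ (Fin 2))) ∧
        Real.exp (Real.log P.card ^ c) ≤ Q.card := by
  obtain ⟨c, hc, n₁, h1⟩ := h (1 / 4) (by norm_num)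
  obtain ⟨n₂, h2⟩ := extremal_pinned
  exact ⟨c, hc, max n₁ n₂, fun P hP hex =>
    h1 P ((le_max_left _ _).trans hP) (h2 P ((le_max_right _ _).trans hP) hex)⟩

/-- The same for every size at least 2, with a constant factor as in the problem file. -/
theorem extremal_all
    (h : ∀ δ : ℝ, 0 < δ → ∃ c : ℝ, 0 < c ∧ ∃ n₀ : ℕ, ∀ P : Finset (EuclideanSpace ℝ (Fin 2)),
      n₀ ≤ P.card →
      ∑ a ∈ P, (((P.image fun b => dist a b).erase 0).card : ℝ) ≤
        (P.card : ℝ) ^ 2 / Real.log P.card ^ δ →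
      ∃ Q ⊆ P, Collinear ℝ (Q : Set (EuclideanSpace ℝ (Fin 2))) ∧
        Real.exp (Real.log P.card ^ c) ≤ Q.card) :
    ∃ c κ : ℝ, 0 < c ∧ 0 < κ ∧ ∀ P : Finset (EuclideanSpace ℝ (Fin 2)), 2 ≤ P.card →
      (∀ P' : Finset (EuclideanSpace ℝ (Fin 2)), P'.card = P.card →
        (P.offDiag.image fun q => dist q.1 q.2).card ≤
          (P'.offDiag.image fun q => dist q.1 q.2).card) →
      ∃ Q ⊆ P, Collinear ℝ (Q : Set (EuclideanSpace ℝ (Fin 2))) ∧
        κ * Real.exp (Real.log P.card ^ c) ≤ Q.card := by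
  obtain ⟨c, hc, n₀, h1⟩ := extremal_of h
  have hw : 0 ≤ Real.log n₀ ^ c := Real.rpow_nonneg (Real.log_natCast_nonneg n₀) c
  refine ⟨c, Real.exp (-(Real.log n₀ ^ c)), hc, Real.exp_pos _, fun P hP hex => ?_⟩
  rcases le_total n₀ P.card with hn | hn
  · obtain ⟨Q, hQ, hcol, hb⟩ := h1 P hn hex
    refine ⟨Q, hQ, hcol, le_trans ?_ hb⟩
    exact mul_le_of_le_one_left (Real.exp_pos _).le (Real.exp_le_one_iff.2 (by linarith))
  · obtain ⟨a, ha⟩ := card_pos.1 (show 0 < P.card by omega)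
    refine ⟨{a}, singleton_subset_iff.2 ha, by simpa using collinear_singleton ℝ a, ?_⟩
    have hn2 : (2 : ℝ) ≤ P.card := by exact_mod_cast hP
    have h2 : Real.log P.card ^ c ≤ Real.log n₀ ^ c :=
      Real.rpow_le_rpow (Real.log_natCast_nonneg _)
        (Real.log_le_log (by linarith) (by exact_mod_cast hn)) hc.le
    rw [← Real.exp_add, card_singleton, Nat.cast_one]
    exact Real.exp_le_one_iff.2 (by linarith)

end Pool.Agent.MP_ddf486_co.Grid
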